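import Pool.Agent.TH855.Blow
import Pool.Agent.TH855.CBounds

/-!
# `c(F)` and complete multipartite graphs

`KK f` is the complete multipartite graph with the classes of `f`.
-/

set_option autoImplicit false

namespace Pool.Agent.Helper36y

theorem fin3_aux : ∀ p q r s t : Fin 3, r ≠ p → s ≠ p → s ≠ r → q ≠ p → t ≠ p → q ≠ t →
    ¬ (q = r ↔ t = r) := by
  intro p q r s t
  have := p.2
  have := q.2
  have := r.2
  have := s.2
  have := t.2
  simp only [ne_eq, Fin.ext_iff]
  omega

open Pool.Agent.TH855 Pool.Agent.Helper311.Glue Classical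
open scoped ENNReal

/-- the complete multipartite graph on `W` with the classes of `f : W → I` -/
def KK {W I : Type} (f : W → I) : SimpleGraph W := (⊤ : SimpleGraph I).comap f

theorem kk_adj {W I : Type} (f : W → I) (a b : W) : (KK f).Adj a b ↔ f a ≠ f b := Iff.rfl

theorem kk_conn {W I : Type} (f : W → I) (h : ∃ a b, f a ≠ f b) : (KK f).Connected := by
  obtain ⟨a, b, hab⟩ := h
  have hpre : (KK f).Preconnected := by
    intro u v
    by_cases huv : f u = f v
    · obtain ⟨w, hw⟩ : ∃ w, f w ≠ f u := by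
        by_cases h1 : f a = f u
        · exact ⟨b, fun h2 => hab (h1.trans h2.symm)⟩
        · exact ⟨a, h1⟩
      have e1 : (KK f).Adj u w := fun h => hw h.symm
      have e2 : (KK f).Adj w v := fun h => hw (h.trans huv.symm)
      exact e1.reachable.trans e2.reachable
    · have e1 : (KK f).Adj u v := huv
      exact e1.reachable
  have : Nonempty W := ⟨a⟩
  exact ⟨hpre⟩

/-- one step: a class is reduced to one vertex -/
theorem kk_step {W I : Type} [Fintype W] (f : W → I) (x : W)
    (h3 : ∃ a b, f a ≠ f x ∧ f b ≠ f x ∧ f a ≠ f b) {c : ℝ} (hc : 0 ≤ c) (n : ℕ)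
    (hn : {w : W | f w ≠ f x}.ncard = n)
    (h : UpTo (KK (fun w : {w : W // f w ≠ f x ∨ w = x} => f w.1)) c) :
    UpTo (KK f) (n * c) := by
  have hn' : n = Fintype.card {w : W // f w ≠ f x} := by
    rw [← hn, Set.ncard_eq_toFinset_card', Set.toFinset_card]
    exact Fintype.card_congr (Equiv.refl _)
  rw [hn']
  obtain ⟨a, b, ha, hb, hab⟩ := h3
  obtain ⟨f', hf'⟩ : ∃ f' : {w : W // f w ≠ f x ∨ w = x} → I, f' = fun w => f w.1 := ⟨_, rfl⟩
  rw [← hf'] at h
  obtain ⟨x', hx'⟩ : ∃ x' : {w : W // f w ≠ f x ∨ w = x}, x' = ⟨x, Or.inr rfl⟩ := ⟨_, rfl⟩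
  have hcard : Fintype.card {w : W // f w ≠ f x ∨ w = x} = Fintype.card {w : W // f w ≠ f x} + 1 := by
    rw [Fintype.card_subtype, Fintype.card_subtype]
    have : (Finset.univ.filter fun w => f w ≠ f x ∨ w = x) =
        insert x (Finset.univ.filter fun w => f w ≠ f x) := by
      ext w
      simp only [Finset.mem_filter, Finset.mem_univ, true_and, Finset.mem_insert]
      tauto
    rw [this, Finset.card_insert_of_notMem]
    simp
  have h1 : 1 ≤ Fintype.card {w : W // f w ≠ f x} := Fintype.card_pos_iff.2 ⟨⟨a, ha⟩⟩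
  have hconn : (KK f').Connected := by
    refine kk_conn f' ⟨⟨a, Or.inl ha⟩, ⟨b, Or.inl hb⟩, ?_⟩
    rw [hf']
    exact hab
  have hrim : ((KK f').induce {z | z ≠ x'}).Connected := by
    have e : (KK f').induce {z | z ≠ x'} = KK (fun z : {z // z ∈ {z | z ≠ x'}} => f' z) := rfl
    rw [e]
    have hax : (⟨a, Or.inl ha⟩ : {w : W // f w ≠ f x ∨ w = x}) ≠ x' := by
      rw [hx']
      intro h
      exact ha (congrArg f (congrArg Subtype.val h))
    have hbx : (⟨b, Or.inl hb⟩ : {w : W // f w ≠ f x ∨ w = x}) ≠ x' := by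
      rw [hx']
      intro h
      exact hb (congrArg f (congrArg Subtype.val h))
    refine kk_conn _ ⟨⟨_, hax⟩, ⟨_, hbx⟩, ?_⟩
    rw [hf']
    exact hab
  obtain ⟨t, ht⟩ : ∃ t : ℕ, t = Fintype.card {w : W // ¬ (f w ≠ f x ∨ w = x)} := ⟨_, rfl⟩
  have key := upTo_blow (KK f') hconn (Fintype.card {w : W // f w ≠ f x}) h1 hcard x' hrim t hc h
  refine UpTo.mono ?_ key
  obtain ⟨e⟩ : Nonempty ({w : W // ¬ (f w ≠ f x ∨ w = x)} ≃ Fin t) :=
    ⟨Fintype.equivFinOfCardEq ht.symm⟩
  obtain ⟨φ, hφ⟩ : ∃ φ : W → {w : W // f w ≠ f x ∨ w = x} ⊕ Fin t,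
      φ = fun w => if h : f w ≠ f x ∨ w = x then Sum.inl ⟨w, h⟩ else Sum.inr (e ⟨w, h⟩) := ⟨_, rfl⟩
  have hval : ∀ w, f' ((Sum.elim id (fun _ => x') : _ → {w : W // f w ≠ f x ∨ w = x}) (φ w)) = f w := by
    intro w
    rw [hφ, hf']
    by_cases h : f w ≠ f x ∨ w = x
    · simp only [dif_pos h]
      rfl
    · simp only [dif_neg h]
      show f (x' : W) = f w
      rw [hx']
      push Not at h
      exact h.1.symm
  have hinj : Function.Injective φ := by
    intro w w' hww
    rw [hφ] at hww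
    by_cases h : f w ≠ f x ∨ w = x <;> by_cases h' : f w' ≠ f x ∨ w' = x
    · simp only [dif_pos h, dif_pos h', Sum.inl.injEq, Subtype.mk.injEq] at hww
      exact hww
    · simp only [dif_pos h, dif_neg h', reduceCtorEq] at hww
    · simp only [dif_neg h, dif_pos h', reduceCtorEq] at hww
    · simp only [dif_neg h, dif_neg h', Sum.inr.injEq, EmbeddingLike.apply_eq_iff_eq,
        Subtype.mk.injEq] at hww
      exact hww
  refine ⟨⟨⟨φ, ?_⟩, hinj⟩⟩
  intro u v huv
  show (KK f').Adj _ _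
  rw [kk_adj, hval, hval]
  exact huv

/-- a graph with a proper colouring is contained in the complete multipartite graph -/
theorem le_kk {W I : Type} (F : SimpleGraph W) (f : W → I) (hf : ∀ a b, F.Adj a b → f a ≠ f b) :
    F.IsContained (KK f) :=
  ⟨⟨⟨id, fun h => hf _ _ h⟩, Function.injective_id⟩⟩

/-- the triangle like case: apex classes -/
theorem kk_apex {W : Type} [Fintype W] (f : W → Fin 3) (x : W)
    (h3 : ∃ a b, f a ≠ f x ∧ f b ≠ f x ∧ f a ≠ f b) :
    UpTo (KK f) ({w : W | f w ≠ f x}.ncard : ℕ) := by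
  have key := kk_step f x h3 zero_le_one (c := 1) _ rfl ?_
  · rw [mul_one] at key
    exact key
  · obtain ⟨a, b, ha, hb, hab⟩ := h3
    refine upTo_ab _ ⟨x, Or.inr rfl⟩ ⟨fun w => decide (f w = f a), ?_⟩
    intro y z hyz hy hz h
    rw [decide_eq_decide] at h
    have hyx : f (y : W) ≠ f x := by
      rcases y.2 with h1 | h1
      · exact h1
      · exact absurd (Subtype.ext h1) hy
    have hzx : f (z : W) ≠ f x := by
      rcases z.2 with h1 | h1
      · exact h1
      · exact absurd (Subtype.ext h1) hz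
    have hyz' : f (y : W) ≠ f z := hyz
    exact fin3_aux (f x) (f y) (f a) (f b) (f z) ha hb hab.symm hyx hzx hyz' h

end Pool.Agent.Helper36y
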