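import Pool.Agent.Helper36y.Homs

/-!
# `c(F)` for 3-colourable graphs and vertex covers
-/

set_option autoImplicit false

namespace Pool.Agent.Helper36y

open Pool.Agent.TH855 Pool.Agent.Helper311.Glue Classical
open scoped ENNReal

/-- `H` has at least three vertices, is connected and has no cut vertex -/
def TwoConnected {U : Type} [Fintype U] (H : SimpleGraph U) : Prop :=
  3 ≤ Fintype.card U ∧ H.Connected ∧ ∀ z : U, (H.induce {y | y ≠ z}).Connected

theorem two_conn_top (r : ℕ) (hr : 3 ≤ r) : TwoConnected (⊤ : SimpleGraph (Fin r)) := by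
  have : NeZero r := ⟨by omega⟩
  refine ⟨by rw [Fintype.card_fin]; exact hr, SimpleGraph.connected_top, ?_⟩
  intro z
  have : Nonempty {y : Fin r // y ∈ {y | y ≠ z}} := by
    by_cases h : z = ⟨0, by omega⟩
    · refine ⟨⟨⟨1, by omega⟩, ?_⟩⟩
      rw [h]
      intro h1
      have := congrArg Fin.val h1
      simp at this
    · exact ⟨⟨⟨0, by omega⟩, fun h1 => h h1.symm⟩⟩
  refine ⟨fun a b => ?_⟩
  by_cases hab : a = b
  · rw [hab]
  · have h1 : ((⊤ : SimpleGraph (Fin r)).induce {y | y ≠ z}).Adj a b := by
      rw [SimpleGraph.induce_adj, SimpleGraph.top_adj]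
      exact fun h => hab (Subtype.ext h)
    exact h1.reachable

/-- bipartite graphs -/
theorem bip {W : Type} [Fintype W] (F : SimpleGraph W) (x : W) (h : F.Colorable 2) : c F ≤ 1 := by
  refine c_ab_le_one F x ?_
  obtain ⟨C⟩ := h
  exact ⟨SimpleGraph.Coloring.mk (fun y => C y.1) (fun {a b} hab => C.valid hab)⟩

theorem three {W : Type} [Fintype W] (F : SimpleGraph W) (X : Set W)
    (hX : ∀ a ∈ X, ∀ b ∈ X, ¬ F.Adj a b) (hb : (F.induce Xᶜ).Colorable 2) (hne : X ≠ Set.univ) :
    c F ≤ (Xᶜ).ncard := by
  obtain ⟨w0, hw0⟩ : ∃ w, w ∉ X := by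
    by_contra hcon
    push Not at hcon
    exact hne (Set.eq_univ_of_forall hcon)
  have hn : 1 ≤ (Xᶜ).ncard := by
    rw [Nat.one_le_iff_ne_zero]
    intro h0
    have := (Set.ncard_eq_zero (Set.toFinite _)).1 h0
    have h1 : w0 ∈ Xᶜ := hw0
    rw [this] at h1
    exact h1
  by_cases h2 : F.Colorable 2
  · refine (bip F w0 h2).trans ?_
    exact_mod_cast hn
  · obtain ⟨C⟩ := hb
    obtain ⟨f, hf⟩ : ∃ f : W → Fin 3, f = fun w => if h : w ∈ X then 0 else
        (if C ⟨w, h⟩ = 0 then 1 else 2) := ⟨_, rfl⟩
    have f0 : ∀ w, w ∈ X → f w = 0 := by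
      intro w hw
      rw [hf]
      simp only [dif_pos hw]
    have f1 : ∀ w (hw : w ∉ X), C ⟨w, hw⟩ = 0 → f w = 1 := by
      intro w hw h
      rw [hf]
      simp only [dif_neg hw, if_pos h]
    have f2 : ∀ w (hw : w ∉ X), C ⟨w, hw⟩ ≠ 0 → f w = 2 := by
      intro w hw h
      rw [hf]
      simp only [dif_neg hw, if_neg h]
    have hne0 : ∀ w, w ∉ X → f w ≠ 0 := by
      intro w hw
      by_cases h : C ⟨w, hw⟩ = 0
      · rw [f1 w hw h]; decide
      · rw [f2 w hw h]; decide
    have hprop : ∀ a b, F.Adj a b → f a ≠ f b := by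
      intro a b hab
      by_cases ha : a ∈ X
      · rw [f0 a ha]
        by_cases hb' : b ∈ X
        · exact absurd hab (hX a ha b hb')
        · exact (hne0 b hb').symm
      · by_cases hb' : b ∈ X
        · rw [f0 b hb']
          exact hne0 a ha
        · have hadj : (F.induce Xᶜ).Adj ⟨a, ha⟩ ⟨b, hb'⟩ := hab
          have hC : C ⟨a, ha⟩ ≠ C ⟨b, hb'⟩ := C.valid hadj
          by_cases h1 : C ⟨a, ha⟩ = 0 <;> by_cases h3 : C ⟨b, hb'⟩ = 0
          · exact absurd (h1.trans h3.symm) hC
          · rw [f1 a ha h1, f2 b hb' h3]; decide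
          · rw [f2 a ha h1, f1 b hb' h3]; decide
          · exfalso
            have key : ∀ p q : Fin 2, p ≠ 0 → q ≠ 0 → p = q := by decide
            exact hC (key _ _ h1 h3)
    -- all three classes are nonempty
    have hall : ∀ i : Fin 3, ∃ w, f w = i := by
      intro i
      by_contra hcon
      push Not at hcon
      apply h2
      -- two colours suffice
      obtain ⟨g, hg⟩ : ∃ g : Fin 3 → Fin 2, ∀ p q, p ≠ i → q ≠ i → g p = g q → p = q := by
        have key : ∀ i : Fin 3, ∃ g : Fin 3 → Fin 2, ∀ p q, p ≠ i → q ≠ i → g p = g q → p = q := by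
          intro i
          fin_cases i
          · exact ⟨![0, 0, 1], by decide⟩
          · exact ⟨![0, 0, 1], by decide⟩
          · exact ⟨![0, 1, 1], by decide⟩
        exact key i
      exact ⟨SimpleGraph.Coloring.mk (fun w => g (f w)) (fun {a b} hab h =>
        hprop a b hab (hg _ _ (hcon a) (hcon b) h))⟩
    obtain ⟨x, hx⟩ := hall 0
    obtain ⟨a, ha⟩ := hall 1
    obtain ⟨b, hb'⟩ := hall 2
    have key := kk_apex f x ⟨a, b, by rw [ha, hx]; decide, by rw [hb', hx]; decide,
      by rw [ha, hb']; decide⟩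
    have hset : {w : W | f w ≠ f x} = Xᶜ := by
      ext w
      show f w ≠ f x ↔ w ∉ X
      rw [hx]
      constructor
      · intro h hw
        exact h (f0 w hw)
      · exact hne0 w
    rw [hset] at key
    have h5 := c_le_of_upTo F _ (by positivity) (UpTo.mono (le_kk F f hprop) key)
    rwa [ENNReal.ofReal_natCast] at h5

theorem three' {W : Type} [Fintype W] [Nonempty W] (F : SimpleGraph W) (h : F.Colorable 3) :
    c F ≤ Fintype.card W := by
  obtain ⟨C⟩ := h
  have hcard : 1 ≤ Fintype.card W := Fintype.card_pos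
  obtain ⟨w0⟩ : Nonempty W := inferInstance
  by_cases h2 : F.Colorable 2
  · refine (bip F w0 h2).trans ?_
    exact_mod_cast hcard
  · have h3 := three F {w | C w = 0} (fun a ha b hb hab => C.valid hab (by
        rw [Set.mem_setOf_eq] at ha hb
        rw [ha, hb])) ?_ ?_
    · refine h3.trans ?_
      have : ({w | C w = 0}ᶜ).ncard ≤ Fintype.card W := by
        refine (Set.ncard_le_ncard (Set.subset_univ _) (Set.toFinite _)).trans ?_
        rw [Set.ncard_univ, Nat.card_eq_fintype_card]
      exact_mod_cast this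
    · refine ⟨SimpleGraph.Coloring.mk (fun w => if C w.1 = 1 then (0 : Fin 2) else 1) ?_⟩
      intro a b hab h
      have hC : C a.1 ≠ C b.1 := C.valid hab
      have ha : C a.1 ≠ 0 := a.2
      have hb : C b.1 ≠ 0 := b.2
      have key : ∀ p q : Fin 3, p ≠ 0 → q ≠ 0 → p ≠ q →
          ¬ ((if p = 1 then (0 : Fin 2) else 1) = if q = 1 then (0 : Fin 2) else 1) := by decide
      apply key _ _ ha hb hC
      convert h using 2
    · intro huniv
      apply h2
      refine ⟨SimpleGraph.Coloring.mk (fun _ => 0) ?_⟩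
      intro a b hab
      exfalso
      have ha : a ∈ {w | C w = 0} := huniv ▸ Set.mem_univ a
      have hb : b ∈ {w | C w = 0} := huniv ▸ Set.mem_univ b
      have ha' : C a = 0 := ha
      have hb' : C b = 0 := hb
      exact C.valid hab (ha'.trans hb'.symm)

/-- vertex covers -/
theorem cover {W : Type} [Fintype W] (F : SimpleGraph W) (X : Set W)
    (hX : ∀ a ∈ X, ∀ b ∈ X, ¬ F.Adj a b) (m : ℕ) (hm : (Xᶜ).ncard = m) (h2 : 2 ≤ m) :
    c F ≤ m * c (⊤ : SimpleGraph (Fin (m + 1))) := by
  by_cases h : c (⊤ : SimpleGraph (Fin (m + 1))) = ∞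
  · have hk0 : (m : ℝ≥0∞) ≠ 0 := by
      rw [Ne, Nat.cast_eq_zero]
      omega
    rw [h, ENNReal.mul_top hk0]
    exact le_top
  have h1 : UpTo (⊤ : SimpleGraph (Fin (m + 1))) (c (⊤ : SimpleGraph (Fin (m + 1)))).toReal :=
    upTo_of_c_le _ _ ENNReal.toReal_nonneg (by rw [ENNReal.ofReal_toReal h])
  have hup : UpTo F (m * (c (⊤ : SimpleGraph (Fin (m + 1)))).toReal) := by
    by_cases hne : X.Nonempty
    · obtain ⟨x, hx⟩ := hne
      obtain ⟨f, hf⟩ : ∃ f : W → Option W, f = fun w => if w ∈ X then none else some w := ⟨_, rfl⟩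
      have f0 : ∀ w, w ∈ X → f w = none := by
        intro w hw
        rw [hf]
        simp only [if_pos hw]
      have f1 : ∀ w, w ∉ X → f w = some w := by
        intro w hw
        rw [hf]
        simp only [if_neg hw]
      have hset : {w : W | f w ≠ f x} = Xᶜ := by
        ext w
        show f w ≠ f x ↔ w ∉ X
        rw [f0 x hx]
        constructor
        · intro h hw
          exact h (f0 w hw)
        · intro hw
          rw [f1 w hw]
          simp
      have hprop : ∀ a b, F.Adj a b → f a ≠ f b := by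
        intro a b hab
        by_cases ha : a ∈ X
        · by_cases hb : b ∈ X
          · exact absurd hab (hX a ha b hb)
          · rw [f0 a ha, f1 b hb]
            simp
        · by_cases hb : b ∈ X
          · rw [f1 a ha, f0 b hb]
            simp
          · rw [f1 a ha, f1 b hb]
            intro h
            exact F.ne_of_adj hab (Option.some.inj h)
      obtain ⟨a, ha, b, hb, hab⟩ := (Set.one_lt_ncard (Set.toFinite _)).1 (by rw [hm]; omega :
        1 < (Xᶜ).ncard)
      refine UpTo.mono (le_kk F f hprop) (kk_step f x ⟨a, b, ?_, ?_, ?_⟩ ENNReal.toReal_nonneg m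
        (by rw [hset, hm]) ?_)
      · rw [f1 a ha, f0 x hx]
        simp
      · rw [f1 b hb, f0 x hx]
        simp
      · rw [f1 a ha, f1 b hb]
        intro h
        exact hab (Option.some.inj h)
      · refine UpTo.mono ?_ h1
        have hc : Fintype.card {w : W // f w ≠ f x ∨ w = x} ≤ m + 1 := by
          have e1 : Fintype.card {w : W // f w ≠ f x ∨ w = x} = {w : W | f w ≠ f x ∨ w = x}.ncard := by
            rw [Set.ncard_eq_toFinset_card', Set.toFinset_card]
            exact Fintype.card_congr (Equiv.refl _)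
          have e2 : {w : W | f w ≠ f x ∨ w = x} ⊆ Xᶜ ∪ {x} := by
            rintro w (hw | hw)
            · left
              rw [← hset]
              exact hw
            · right
              exact hw
          rw [e1]
          refine (Set.ncard_le_ncard e2 (Set.toFinite _)).trans ((Set.ncard_union_le _ _).trans ?_)
          rw [hm, Set.ncard_singleton]
        obtain ⟨g⟩ := Function.Embedding.nonempty_of_card_le
          (hc.trans (by rw [Fintype.card_fin]) : _ ≤ Fintype.card (Fin (m + 1)))
        refine ⟨⟨⟨g, ?_⟩, g.injective⟩⟩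
        intro u v huv
        have : u ≠ v := by
          rintro rfl
          exact huv rfl
        exact fun h => this (g.injective h)
    · have hX0 : X = ∅ := Set.not_nonempty_iff_eq_empty.1 hne
      have hc : Fintype.card W ≤ Fintype.card (Fin (m + 1)) := by
        rw [hX0, Set.compl_empty, Set.ncard_univ, Nat.card_eq_fintype_card] at hm
        rw [Fintype.card_fin]
        omega
      obtain ⟨g⟩ := Function.Embedding.nonempty_of_card_le hc
      refine UpTo.mono (F' := (⊤ : SimpleGraph (Fin (m + 1)))) ⟨⟨⟨g, ?_⟩, g.injective⟩⟩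
        (UpTo.le ?_ h1)
      · intro u v huv h
        exact F.ne_of_adj huv (g.injective h)
      · have h5 : (1 : ℝ) ≤ m := by
          exact_mod_cast (show 1 ≤ m by omega)
        have h6 : (0 : ℝ) ≤ (c (⊤ : SimpleGraph (Fin (m + 1)))).toReal := ENNReal.toReal_nonneg
        nlinarith
  have h5 := c_le_of_upTo F _ (by positivity) hup
  rwa [ENNReal.ofReal_mul (by positivity), ENNReal.ofReal_natCast, ENNReal.ofReal_toReal h] at h5


end Pool.Agent.Helper36y
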