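import Pool.Agent.Helper36y.Chr

/-!
# `c(F)` and homomorphisms

`BB H f` is the graph on `W` obtained from `H` by replacing the vertices by independent sets, the fibres of `f`.
-/

set_option autoImplicit false

namespace Pool.Agent.Helper36y

open Pool.Agent.TH855 Pool.Agent.Helper311.Glue Classical
open scoped ENNReal

/-- the blow-up of `H` with the classes of `f : W → U` -/
def BB {W U : Type} (H : SimpleGraph U) (f : W → U) : SimpleGraph W := H.comap f

theorem bb_conn {W U : Type} (H : SimpleGraph U) (hH : H.Connected) (h2 : ∃ a b : U, a ≠ b)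
    (f : W → U) (hf : Function.Surjective f) : (BB H f).Connected := by
  have hnb : ∀ u : U, ∃ v, H.Adj u v := by
    intro u
    obtain ⟨a, b, hab⟩ := h2
    obtain ⟨w, hw⟩ : ∃ w, u ≠ w := by
      by_cases h1 : u = a
      · exact ⟨b, fun h2 => hab (h1.symm.trans h2)⟩
      · exact ⟨a, h1⟩
    obtain ⟨p⟩ := hH.preconnected u w
    cases p with
    | nil => exact absurd rfl hw
    | cons h _ => exact ⟨_, h⟩
  -- twins
  have htw : ∀ u v : W, f u = f v → (BB H f).Reachable u v := by
    intro u v huv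
    obtain ⟨y, hy⟩ := hnb (f u)
    obtain ⟨z, rfl⟩ := hf y
    have e1 : (BB H f).Adj u z := hy
    have e2 : (BB H f).Adj z v := by
      have : H.Adj (f z) (f v) := by
        rw [← huv]
        exact hy.symm
      exact this
    exact e1.reachable.trans e2.reachable
  have hlift : ∀ (a b : U) (_ : H.Walk a b) (u v : W), f u = a → f v = b → (BB H f).Reachable u v := by
    intro a b p
    induction p with
    | nil =>
      intro u v hu hv
      exact htw u v (hu.trans hv.symm)
    | @cons a c b hac p ih =>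
      intro u v hu hv
      obtain ⟨w, hw⟩ := hf c
      have e1 : (BB H f).Adj u w := by
        have : H.Adj (f u) (f w) := by
          rw [hu, hw]
          exact hac
        exact this
      exact e1.reachable.trans (ih w v hw hv)
  have : Nonempty W := by
    obtain ⟨a, -⟩ := h2
    obtain ⟨w, -⟩ := hf a
    exact ⟨w⟩
  refine ⟨fun u v => ?_⟩
  obtain ⟨p⟩ := hH.preconnected (f u) (f v)
  exact hlift _ _ p u v rfl rfl

/-- one step: a class is reduced to one vertex -/
theorem bb_step {W U : Type} [Fintype W] (H : SimpleGraph U) (hH : H.Connected)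
    (hcut : ∀ z : U, (H.induce {y | y ≠ z}).Connected) (h3 : ∀ z : U, ∃ a b, a ≠ z ∧ b ≠ z ∧ a ≠ b)
    (f : W → U) (hf : Function.Surjective f) (x : W) {c : ℝ} (hc : 0 ≤ c)
    (h : UpTo (BB H (fun w : {w : W // f w ≠ f x ∨ w = x} => f w.1)) c) :
    UpTo (BB H f) (Fintype.card W * c) := by
  obtain ⟨f', hf'⟩ : ∃ f' : {w : W // f w ≠ f x ∨ w = x} → U, f' = fun w => f w.1 := ⟨_, rfl⟩
  rw [← hf'] at h
  obtain ⟨x', hx'⟩ : ∃ x' : {w : W // f w ≠ f x ∨ w = x}, x' = ⟨x, Or.inr rfl⟩ := ⟨_, rfl⟩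
  have hfx' : f' x' = f x := by rw [hf', hx']
  have hxx : (x' : W) = x := by rw [hx']
  have hsurj : Function.Surjective f' := by
    intro u
    by_cases hu : u = f x
    · exact ⟨x', hfx'.trans hu.symm⟩
    · obtain ⟨w, hw⟩ := hf u
      refine ⟨⟨w, Or.inl (by rw [hw]; exact hu)⟩, ?_⟩
      rw [hf']
      exact hw
  obtain ⟨p, q, hp, hq, hpq⟩ := h3 (f x)
  have hconn : (BB H f').Connected := bb_conn H hH ⟨p, q, hpq⟩ f' hsurj
  have hrim : ((BB H f').induce {z | z ≠ x'}).Connected := by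
    have hne : ∀ z : {z // z ∈ {z | z ≠ x'}}, f' z.1 ∈ {y | y ≠ f x} := by
      intro z hz
      apply z.2
      rcases z.1.2 with h1 | h1
      · exfalso
        apply h1
        rw [hf'] at hz
        exact hz
      · exact Subtype.ext (h1.trans hxx.symm)
    obtain ⟨g, hg⟩ : ∃ g : {z // z ∈ {z | z ≠ x'}} → {y // y ∈ {y | y ≠ f x}},
        g = fun z => ⟨f' z.1, hne z⟩ := ⟨_, rfl⟩
    have e : (BB H f').induce {z | z ≠ x'} = BB (H.induce {y | y ≠ f x}) g := by
      rw [hg]
      rfl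
    rw [e]
    refine bb_conn _ (hcut (f x)) ⟨⟨p, hp⟩, ⟨q, hq⟩, fun h => hpq (congrArg Subtype.val h)⟩ g ?_
    rintro ⟨u, hu⟩
    obtain ⟨w, hw⟩ := hsurj u
    refine ⟨⟨w, ?_⟩, ?_⟩
    · intro h1
      apply hu
      rw [← hw, h1, hfx']
    · rw [hg]
      exact Subtype.ext hw
  have hcard1 : 2 ≤ Fintype.card {w : W // f w ≠ f x ∨ w = x} := by
    obtain ⟨w, hw⟩ := hsurj p
    have : w ≠ x' := by
      rintro rfl
      exact hp (hw.symm.trans hfx')
    exact Fintype.one_lt_card_iff.2 ⟨w, x', this⟩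
  have hcard2 : Fintype.card {w : W // f w ≠ f x ∨ w = x} ≤ Fintype.card W :=
    Fintype.card_subtype_le _
  obtain ⟨k, hk⟩ : ∃ k, Fintype.card {w : W // f w ≠ f x ∨ w = x} = k + 1 := ⟨_, (by omega :
    _ = (Fintype.card {w : W // f w ≠ f x ∨ w = x} - 1) + 1)⟩
  obtain ⟨t, ht⟩ : ∃ t : ℕ, t = Fintype.card {w : W // ¬ (f w ≠ f x ∨ w = x)} := ⟨_, rfl⟩
  have key := upTo_blow (BB H f') hconn k (by omega) hk x' hrim t hc h
  refine UpTo.mono (F' := blow (BB H f') x' t) ?_ (UpTo.le ?_ key)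
  · obtain ⟨e⟩ : Nonempty ({w : W // ¬ (f w ≠ f x ∨ w = x)} ≃ Fin t) :=
      ⟨Fintype.equivFinOfCardEq ht.symm⟩
    obtain ⟨φ, hφ⟩ : ∃ φ : W → {w : W // f w ≠ f x ∨ w = x} ⊕ Fin t,
        φ = fun w => if h : f w ≠ f x ∨ w = x then Sum.inl ⟨w, h⟩ else Sum.inr (e ⟨w, h⟩) := ⟨_, rfl⟩
    have hval : ∀ w, f' ((Sum.elim id (fun _ => x') : _ → {w : W // f w ≠ f x ∨ w = x}) (φ w)) = f w := by
      intro w
      rw [hφ, hf']
      by_cases h : f w ≠ f x ∨ w = x
      · simp only [dif_pos h]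
        rfl
      · simp only [dif_neg h]
        show f (x' : W) = f w
        rw [hx']
        push Not at h
        exact h.1.symm
    have hinj : Function.Injective φ := by
      intro w w' hww
      rw [hφ] at hww
      by_cases h : f w ≠ f x ∨ w = x <;> by_cases h' : f w' ≠ f x ∨ w' = x
      · simp only [dif_pos h, dif_pos h', Sum.inl.injEq, Subtype.mk.injEq] at hww
        exact hww
      · simp only [dif_pos h, dif_neg h', reduceCtorEq] at hww
      · simp only [dif_neg h, dif_pos h', reduceCtorEq] at hww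
      · simp only [dif_neg h, dif_neg h', Sum.inr.injEq, EmbeddingLike.apply_eq_iff_eq,
          Subtype.mk.injEq] at hww
        exact hww
    refine ⟨⟨⟨φ, ?_⟩, hinj⟩⟩
    intro u v huv
    have huv' : H.Adj (f u) (f v) := huv
    show H.Adj (f' _) (f' _)
    rw [hval, hval]
    exact huv'
  · refine mul_le_mul_of_nonneg_right ?_ hc
    have : k ≤ Fintype.card W := by omega
    exact_mod_cast this

/-- iterate -/
theorem bb_all {U : Type} [Fintype U] (H : SimpleGraph U) (hH : H.Connected)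
    (hcut : ∀ z : U, (H.induce {y | y ≠ z}).Connected) (h3 : ∀ z : U, ∃ a b, a ≠ z ∧ b ≠ z ∧ a ≠ b)
    {c : ℝ} (hc : 0 ≤ c) (hUp : UpTo H c) (m : ℕ) : ∀ (n : ℕ) (W : Type) [Fintype W] (f : W → U),
    Function.Surjective f → Fintype.card W ≤ m →
    {u : U | ∃ a b, a ≠ b ∧ f a = u ∧ f b = u}.ncard = n →
    UpTo (BB H f) ((m : ℝ) ^ n * c) := by
  intro n
  induction n with
  | zero =>
    intro W _ f hf hW hn
    rw [pow_zero, one_mul]
    refine UpTo.mono ⟨⟨⟨f, fun h => h⟩, ?_⟩⟩ hUp
    intro a b hab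
    by_contra hne
    have : f a ∈ {u : U | ∃ a b, a ≠ b ∧ f a = u ∧ f b = u} := ⟨a, b, hne, rfl, hab.symm⟩
    rw [(Set.ncard_eq_zero (Set.toFinite _)).1 hn] at this
    exact this
  | succ n ih =>
    intro W _ f hf hW hn
    obtain ⟨u, hu⟩ : {u : U | ∃ a b, a ≠ b ∧ f a = u ∧ f b = u}.Nonempty :=
      Set.nonempty_of_ncard_ne_zero (by rw [hn]; omega)
    obtain ⟨x, y, hxy, hxu, hyu⟩ := id hu
    subst hxu
    have hcard2 : Fintype.card {w : W // f w ≠ f x ∨ w = x} ≤ Fintype.card W :=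
      Fintype.card_subtype_le _
    have key := ih {w : W // f w ≠ f x ∨ w = x} (fun w => f w.1) ?_ (hcard2.trans hW) ?_
    · refine UpTo.le ?_ (bb_step H hH hcut h3 f hf x (by positivity) key)
      have h5 : (Fintype.card W : ℝ) ≤ m := by exact_mod_cast hW
      have h6 : (0 : ℝ) ≤ (m : ℝ) ^ n * c := by positivity
      calc (Fintype.card W : ℝ) * ((m : ℝ) ^ n * c) ≤ m * ((m : ℝ) ^ n * c) :=
            mul_le_mul_of_nonneg_right h5 h6
        _ = (m : ℝ) ^ (n + 1) * c := by ring
    · intro u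
      by_cases hu : u = f x
      · exact ⟨⟨x, Or.inr rfl⟩, hu.symm⟩
      · obtain ⟨w, hw⟩ := hf u
        exact ⟨⟨w, Or.inl (by rw [hw]; exact hu)⟩, hw⟩
    · have hset : {u : U | ∃ a b : {w : W // f w ≠ f x ∨ w = x}, a ≠ b ∧ f a.1 = u ∧ f b.1 = u} =
          {u : U | ∃ a b, a ≠ b ∧ f a = u ∧ f b = u} \ {f x} := by
        ext v
        constructor
        · rintro ⟨a, b, hab, ha, hb⟩
          refine ⟨⟨a.1, b.1, fun h => hab (Subtype.ext h), ha, hb⟩, ?_⟩
          intro hv
          rw [Set.mem_singleton_iff] at hv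
          subst hv
          apply hab
          apply Subtype.ext
          rcases a.2 with h1 | h1
          · exact absurd ha h1
          · rcases b.2 with h2 | h2
            · exact absurd hb h2
            · exact h1.trans h2.symm
        · rintro ⟨⟨a, b, hab, ha, hb⟩, hv⟩
          exact ⟨⟨a, Or.inl (by rw [ha]; exact hv)⟩,
            ⟨b, Or.inl (by rw [hb]; exact hv)⟩, fun h => hab (congrArg Subtype.val h), ha, hb⟩
      rw [hset, Set.ncard_sdiff_singleton_of_mem hu, hn]
      omega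

/-- **the homomorphism theorem** -/
theorem hom_bound {W U : Type} [Fintype W] [Fintype U] (F : SimpleGraph W) (H : SimpleGraph U)
    (hH : H.Connected) (hcut : ∀ z : U, (H.induce {y | y ≠ z}).Connected)
    (h3 : 3 ≤ Fintype.card U) (f : W → U) (hf : ∀ a b, F.Adj a b → H.Adj (f a) (f b)) :
    c F ≤ ((Fintype.card W + Fintype.card U) ^ Fintype.card U : ℕ) * c H := by
  have h3' : ∀ z : U, ∃ a b, a ≠ z ∧ b ≠ z ∧ a ≠ b := by
    intro z
    have h4 : 1 < (Finset.univ.erase z).card := by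
      rw [Finset.card_erase_of_mem (Finset.mem_univ _), Finset.card_univ]
      omega
    obtain ⟨a, ha, b, hb, hab⟩ := Finset.one_lt_card.1 h4
    exact ⟨a, b, Finset.ne_of_mem_erase ha, Finset.ne_of_mem_erase hb, hab⟩
  by_cases h : c H = ∞
  · have hk0 : (((Fintype.card W + Fintype.card U) ^ Fintype.card U : ℕ) : ℝ≥0∞) ≠ 0 := by
      rw [Ne, Nat.cast_eq_zero]
      have : 0 < Fintype.card W + Fintype.card U := by omega
      positivity
    rw [h, ENNReal.mul_top hk0]
    exact le_top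
  · have h1 : UpTo H (c H).toReal :=
      upTo_of_c_le H _ ENNReal.toReal_nonneg (by rw [ENNReal.ofReal_toReal h])
    have h2 := bb_all H hH hcut h3' ENNReal.toReal_nonneg h1 (Fintype.card W + Fintype.card U) _
      (W ⊕ U) (Sum.elim f id) (fun u => ⟨Sum.inr u, rfl⟩) (by rw [Fintype.card_sum]) rfl
    have h4 : UpTo F ((((Fintype.card W + Fintype.card U) ^ Fintype.card U : ℕ) : ℝ) * (c H).toReal) := by
      refine UpTo.mono (F' := BB H (Sum.elim f id : W ⊕ U → U)) ?_ (UpTo.le ?_ h2)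
      · refine ⟨⟨⟨Sum.inl, ?_⟩, Sum.inl_injective⟩⟩
        intro a b hab
        exact hf a b hab
      · refine mul_le_mul_of_nonneg_right ?_ ENNReal.toReal_nonneg
        push_cast
        refine pow_le_pow_right₀ ?_ ?_
        · have : 1 ≤ Fintype.card W + Fintype.card U := by omega
          exact_mod_cast this
        · refine (Set.ncard_le_ncard (Set.subset_univ _) (Set.toFinite _)).trans ?_
          rw [Set.ncard_univ, Nat.card_eq_fintype_card]
    have h5 := c_le_of_upTo F _ (by positivity) h4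
    rwa [ENNReal.ofReal_mul (by positivity), ENNReal.ofReal_natCast, ENNReal.ofReal_toReal h] at h5

end Pool.Agent.Helper36y
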