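import Pool.Agent.TH855.CBounds
import Pool.Agent.Y388.CF.Basic

/-!
# Removing dominated vertices of bounded degree

If the vertices of an independent set `X` of `G` are mapped by a homomorphism to other vertices, and the
neighbourhoods of the vertices of `X` have at most `k` vertices and connected images, then `G` is a
tree-like gluing of pieces of the rest.
-/

set_option autoImplicit false

namespace Pool.Agent.Helper36y

open Pool.Agent.TH855 Classical
open scoped ENNReal

theorem conn_hub {V : Type} (G : SimpleGraph V) (K : Set V) (hne : K.Nonempty)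
    (hK : ∀ a ∈ K, ∀ b ∈ K, a ≠ b → G.Adj a b) (hv : ∀ v, ∃ k ∈ K, v = k ∨ G.Adj v k) :
    G.Connected := by
  obtain ⟨k0, hk0⟩ := hne
  have : Nonempty V := ⟨k0⟩
  have h1 : ∀ v, G.Reachable v k0 := by
    intro v
    obtain ⟨k, hk, hvk⟩ := hv v
    have h2 : G.Reachable k k0 := by
      by_cases h : k = k0
      · rw [h]
      · exact (hK k hk k0 hk0 h).reachable
    rcases hvk with rfl | h
    · exact h2
    · exact h.reachable.trans h2
  exact ⟨fun u v => (h1 u).trans (h1 v).symm⟩

theorem tg {V U : Type} [Fintype V] (G : SimpleGraph V) (H : SimpleGraph U) (π : V → U) (X : Set V)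
    (k : ℕ) (hX : ∀ a ∈ X, ∀ b ∈ X, ¬ G.Adj a b) (hπ : ∀ a b, G.Adj a b → H.Adj (π a) (π b))
    (hinj : Set.InjOn π Xᶜ)
    (hN : ∀ x ∈ X, {y | G.Adj x y}.ncard ≤ k ∧ (H.induce (π '' {y | G.Adj x y})).Connected) :
    TreeGlued G H k := by
  obtain ⟨e⟩ : Nonempty (V ≃ Fin (Fintype.card V)) := ⟨Fintype.equivFin V⟩
  obtain ⟨b, hb⟩ : ∃ b : V → Set V, b = fun x => if x ∈ X then insert x {y | G.Adj x y} else Xᶜ :=
    ⟨_, rfl⟩
  have b1 : ∀ x, x ∈ X → b x = insert x {y | G.Adj x y} := by
    intro x hx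
    rw [hb]
    simp only [if_pos hx]
  have b2 : ∀ x, x ∉ X → b x = Xᶜ := by
    intro x hx
    rw [hb]
    simp only [if_neg hx]
  obtain ⟨B, hB0, hBs⟩ : ∃ B : ℕ → Set V, B 0 = Xᶜ ∧ ∀ x : V, B ((e x : ℕ) + 1) = b x := by
    refine ⟨fun i => match i with
      | 0 => Xᶜ
      | i + 1 => if h : i < Fintype.card V then b (e.symm ⟨i, h⟩) else Xᶜ, rfl, ?_⟩
    intro x
    show (if h : (e x : ℕ) < Fintype.card V then b (e.symm ⟨(e x : ℕ), h⟩) else Xᶜ) = b x
    rw [dif_pos (e x).2]
    simp
  have hidx : ∀ i < Fintype.card V + 1, i = 0 ∨ ∃ x : V, i = (e x : ℕ) + 1 := by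
    intro i hi
    rcases i with _ | i
    · left; rfl
    · right
      refine ⟨e.symm ⟨i, by omega⟩, ?_⟩
      simp
  have hNX : ∀ x ∈ X, ∀ y, G.Adj x y → y ∉ X := fun x hx y hxy hy => hX x hx y hy hxy
  refine ⟨π, Fintype.card V + 1, B, hπ, ?_, ?_, ?_, ?_⟩
  · intro w
    by_cases hw : w ∈ X
    · refine ⟨(e w : ℕ) + 1, by have := (e w).2; omega, ?_⟩
      rw [hBs, b1 w hw]
      exact Set.mem_insert _ _
    · exact ⟨0, by omega, by rw [hB0]; exact hw⟩
  · intro a a' hab
    by_cases ha : a ∈ X
    · refine ⟨(e a : ℕ) + 1, by have := (e a).2; omega, ?_, ?_⟩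
      · rw [hBs, b1 a ha]
        exact Set.mem_insert _ _
      · rw [hBs, b1 a ha]
        exact Set.mem_insert_of_mem _ hab
    · by_cases ha' : a' ∈ X
      · refine ⟨(e a' : ℕ) + 1, by have := (e a').2; omega, ?_, ?_⟩
        · rw [hBs, b1 a' ha']
          exact Set.mem_insert_of_mem _ hab.symm
        · rw [hBs, b1 a' ha']
          exact Set.mem_insert _ _
      · exact ⟨0, by omega, by rw [hB0]; exact ha, by rw [hB0]; exact ha'⟩
  · intro i hi
    rcases hidx i hi with rfl | ⟨x, rfl⟩
    · rw [hB0]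
      exact hinj
    · rw [hBs]
      by_cases hx : x ∈ X
      · rw [b1 x hx]
        intro p hp q hq hpq
        rcases hp with rfl | hp
        · rcases hq with rfl | hq
          · rfl
          · exact absurd hpq (H.ne_of_adj (hπ _ _ hq))
        · rcases hq with rfl | hq
          · exact absurd hpq.symm (H.ne_of_adj (hπ _ _ hp))
          · exact hinj (hNX x hx p hp) (hNX x hx q hq) hpq
      · rw [b2 x hx]
        exact hinj
  · intro i hi
    rcases hidx i hi with rfl | ⟨x, rfl⟩
    · left
      intro l hl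
      omega
    · right
      refine ⟨0, by omega, ?_, ?_⟩
      · intro l hl
        rw [hB0]
        by_cases hx : x ∈ X
        · rw [hBs, b1 x hx]
          rintro z ⟨hz, hzl⟩
          rcases hz with rfl | hz
          · exfalso
            rcases hidx l (by omega) with rfl | ⟨y, rfl⟩
            · rw [hB0] at hzl
              exact hzl hx
            · rw [hBs] at hzl
              by_cases hy : y ∈ X
              · rw [b1 y hy] at hzl
                rcases hzl with rfl | hzl
                · omega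
                · exact hX y hy z hx hzl
              · rw [b2 y hy] at hzl
                exact hzl hx
          · exact hNX x hx z hz
        · rw [hBs, b2 x hx]
          exact fun z hz => hz.1
      · rw [hB0]
        by_cases hx : x ∈ X
        · right
          rw [hBs, b1 x hx]
          have e1 : insert x {y | G.Adj x y} ∩ Xᶜ = {y | G.Adj x y} := by
            ext z
            constructor
            · rintro ⟨rfl | hz, hz2⟩
              · exact absurd hx hz2
              · exact hz
            · intro hz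
              exact ⟨Set.mem_insert_of_mem _ hz, hNX x hx z hz⟩
          rw [e1]
          exact hN x hx
        · left
          rw [hBs, b2 x hx]

/-! ## the graph with the hubs -/

section hubs

variable {W : Type} {r : ℕ}

/-- the colour of a vertex of `F` or of a hub -/
def kap (col : W → Fin r) : W ⊕ Fin r → Fin r := Sum.elim col id

/-- `F` together with one hub for every colour, adjacent to all vertices of the other colours -/
def HG (F : SimpleGraph W) (col : W → Fin r) : SimpleGraph (W ⊕ Fin r) where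
  Adj a b := kap col a ≠ kap col b ∧ ∀ u w, a = Sum.inl u → b = Sum.inl w → F.Adj u w
  symm := ⟨fun _ _ h => ⟨h.1.symm, fun u w hu hw => (h.2 w u hw hu).symm⟩⟩
  loopless := ⟨fun _ h => h.1 rfl⟩

/-- the vertices at stage `j`: the colours smaller than `j` and the hubs -/
def St (col : W → Fin r) (j : ℕ) : Set (W ⊕ Fin r) := {a | ∀ w, a = Sum.inl w → (col w : ℕ) < j}

theorem hub_mem (col : W → Fin r) (j : ℕ) (i : Fin r) : (Sum.inr i : W ⊕ Fin r) ∈ St col j := by
  intro w h
  cases h

/-- a colour different from two given ones -/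
theorem other (hr : 3 ≤ r) (a b : Fin r) : ∃ k : Fin r, k ≠ a ∧ k ≠ b := by
  by_contra hcon
  push Not at hcon
  have h0 : 0 < r := by omega
  have k0 := hcon ⟨0, by omega⟩
  have k1 := hcon ⟨1, by omega⟩
  have k2 := hcon ⟨2, by omega⟩
  simp only [ne_eq, Fin.ext_iff] at k0 k1 k2
  omega

theorem hg_hub (F : SimpleGraph W) (col : W → Fin r) (a : W ⊕ Fin r) (k : Fin r)
    (h : k ≠ kap col a) : (HG F col).Adj a (Sum.inr k) :=
  ⟨fun h1 => h h1.symm, fun _ _ _ h2 => by cases h2⟩

theorem stage_conn (hr : 3 ≤ r) (F : SimpleGraph W) (col : W → Fin r) (j : ℕ) :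
    ((HG F col).induce (St col j)).Connected := by
  refine conn_hub _ {p | ∃ k, p.1 = Sum.inr k} ⟨⟨Sum.inr ⟨0, by omega⟩, hub_mem col j _⟩, _, rfl⟩ ?_ ?_
  · rintro ⟨a, ha⟩ ⟨k, hk⟩ ⟨b, hb⟩ ⟨l, hl⟩ hab
    have hk' : a = Sum.inr k := hk
    have hl' : b = Sum.inr l := hl
    subst hk'
    subst hl'
    have hkl : l ≠ k := by
      rintro rfl
      exact hab rfl
    exact hg_hub F col _ l hkl
  · intro v
    obtain ⟨k, hk, -⟩ := other hr (kap col v.1) (kap col v.1)
    refine ⟨⟨Sum.inr k, hub_mem col j k⟩, ⟨k, rfl⟩, Or.inr ?_⟩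
    exact hg_hub F col v.1 k hk

/-- one stage -/
theorem stage (hr : 3 ≤ r) [Fintype W] (F : SimpleGraph W) (col : W → Fin r)
    (d : ℕ) (hd : ∀ w, {u | F.Adj w u ∧ col u < col w}.ncard ≤ d) (j : Fin r) :
    c ((HG F col).induce (St col ((j : ℕ) + 1))) ≤
      ((d + (r - 1) : ℕ) : ℝ≥0∞) * c ((HG F col).induce (St col (j : ℕ))) := by
  -- the retraction
  obtain ⟨ρ, hρ⟩ : ∃ ρ : W ⊕ Fin r → W ⊕ Fin r, ρ = fun a =>
      if ∃ w, a = Sum.inl w ∧ col w = j then Sum.inr j else a := ⟨_, rfl⟩
  have ρ1 : ∀ a, (∃ w, a = Sum.inl w ∧ col w = j) → ρ a = Sum.inr j := by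
    intro a ha
    rw [hρ]
    simp only [if_pos ha]
  have ρ2 : ∀ a, ¬ (∃ w, a = Sum.inl w ∧ col w = j) → ρ a = a := by
    intro a ha
    rw [hρ]
    simp only [if_neg ha]
  have hkap : ∀ a, kap col (ρ a) = kap col a := by
    intro a
    by_cases ha : ∃ w, a = Sum.inl w ∧ col w = j
    · rw [ρ1 a ha]
      obtain ⟨w, rfl, hw⟩ := ha
      exact hw.symm
    · rw [ρ2 a ha]
  have hmem : ∀ a, a ∈ St col ((j : ℕ) + 1) → ρ a ∈ St col (j : ℕ) := by
    intro a ha
    by_cases h : ∃ w, a = Sum.inl w ∧ col w = j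
    · rw [ρ1 a h]
      exact hub_mem col _ _
    · rw [ρ2 a h]
      rintro w rfl
      have h1 := ha w rfl
      have h2 : (col w : ℕ) ≠ j := fun h3 => h ⟨w, rfl, Fin.ext h3⟩
      omega
  obtain ⟨π, hπ⟩ : ∃ π : St col ((j : ℕ) + 1) → St col (j : ℕ), π = fun a => ⟨ρ a.1, hmem a.1 a.2⟩ :=
    ⟨_, rfl⟩
  have hπv : ∀ a, (π a).1 = ρ a.1 := by
    intro a
    rw [hπ]
  obtain ⟨X, hXd⟩ : ∃ X : Set (St col ((j : ℕ) + 1)), X = {a | ∃ w, a.1 = Sum.inl w ∧ col w = j} :=
    ⟨_, rfl⟩
  have mX : ∀ a, a ∈ X ↔ ∃ w, a.1 = Sum.inl w ∧ col w = j := by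
    intro a
    rw [hXd]
    rfl
  have hadj : ∀ a b : W ⊕ Fin r, (HG F col).Adj a b → (HG F col).Adj (ρ a) (ρ b) := by
    intro a b hab
    refine ⟨by rw [hkap, hkap]; exact hab.1, ?_⟩
    intro u w hu hw
    by_cases ha : ∃ w, a = Sum.inl w ∧ col w = j
    · rw [ρ1 a ha] at hu
      cases hu
    · by_cases hb : ∃ w, b = Sum.inl w ∧ col w = j
      · rw [ρ1 b hb] at hw
        cases hw
      · rw [ρ2 a ha] at hu
        rw [ρ2 b hb] at hw
        exact hab.2 u w hu hw
  have htg : TreeGlued ((HG F col).induce (St col ((j : ℕ) + 1))) ((HG F col).induce (St col (j : ℕ)))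
      (d + (r - 1)) := by
    refine tg _ _ π X _ ?_ ?_ ?_ ?_
    · rintro a ha b hb hab
      obtain ⟨u, hu, hu2⟩ := (mX a).1 ha
      obtain ⟨w, hw, hw2⟩ := (mX b).1 hb
      have h1 : (HG F col).Adj a.1 b.1 := hab
      apply h1.1
      rw [hu, hw]
      exact hu2.trans hw2.symm
    · intro a b hab
      have h1 : (HG F col).Adj a.1 b.1 := hab
      have h2 := hadj _ _ h1
      rw [← hπv, ← hπv] at h2
      exact h2
    · intro a ha b hb hab
      have ha' : ¬ ∃ w, a.1 = Sum.inl w ∧ col w = j := fun h => ha ((mX a).2 h)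
      have hb' : ¬ ∃ w, b.1 = Sum.inl w ∧ col w = j := fun h => hb ((mX b).2 h)
      have h1 := congrArg Subtype.val hab
      rw [hπv, hπv, ρ2 _ ha', ρ2 _ hb'] at h1
      exact Subtype.ext h1
    · intro x hx
      obtain ⟨w, hw, hwj⟩ := (mX x).1 hx
      have hkx : kap col x.1 = j := by
        rw [hw]
        exact hwj
      constructor
      · -- the number of neighbours
        have e1 : (Subtype.val '' {y | ((HG F col).induce (St col ((j : ℕ) + 1))).Adj x y}) ⊆
            (Sum.inl '' {u | F.Adj w u ∧ col u < col w}) ∪ (Sum.inr '' {k : Fin r | k ≠ j}) := by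
          rintro _ ⟨y, hy, rfl⟩
          have h1 : (HG F col).Adj x.1 y.1 := hy
          obtain ⟨y, hyS⟩ := y
          rcases y with u | k
          · left
            refine ⟨u, ⟨h1.2 w u hw rfl, ?_⟩, rfl⟩
            have h2 := hyS u rfl
            have h3 : kap col x.1 ≠ col u := h1.1
            rw [hkx] at h3
            have h4 : (col u : ℕ) ≠ j := fun h => h3 (Fin.ext h).symm
            rw [hwj, Fin.lt_def]
            omega
          · right
            refine ⟨k, ?_, rfl⟩
            rintro rfl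
            apply h1.1
            rw [hkx]
            rfl
        have e2 : {y | ((HG F col).induce (St col ((j : ℕ) + 1))).Adj x y}.ncard =
            (Subtype.val '' {y | ((HG F col).induce (St col ((j : ℕ) + 1))).Adj x y}).ncard :=
          (Set.ncard_image_of_injective _ Subtype.val_injective).symm
        rw [e2]
        refine (Set.ncard_le_ncard e1 (Set.toFinite _)).trans ((Set.ncard_union_le _ _).trans ?_)
        refine Nat.add_le_add ?_ ?_
        · exact (Set.ncard_image_le (Set.toFinite _)).trans (hd w)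
        · refine (Set.ncard_image_le (Set.toFinite _)).trans ?_
          have e3 : {k : Fin r | k ≠ j} = Set.univ \ {j} := by
            ext k
            simp
          rw [e3, Set.ncard_sdiff_singleton_of_mem (Set.mem_univ _), Set.ncard_univ, Nat.card_eq_fintype_card,
            Fintype.card_fin]
      · -- connected
        have hubs : ∀ k : Fin r, k ≠ j → (⟨Sum.inr k, hub_mem col (j : ℕ) k⟩ : St col (j : ℕ)) ∈
            π '' {y | ((HG F col).induce (St col ((j : ℕ) + 1))).Adj x y} := by
          intro k hk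
          refine ⟨⟨Sum.inr k, hub_mem col _ k⟩, ?_, ?_⟩
          · exact hg_hub F col x.1 k (by rw [hkx]; exact hk)
          · apply Subtype.ext
            rw [hπv, ρ2]
            rintro ⟨w, hw, -⟩
            cases hw
        obtain ⟨k0, hk0, -⟩ := other hr j j
        refine conn_hub _ {p | ∃ k, p.1.1 = Sum.inr k} ⟨⟨_, hubs k0 hk0⟩, _, rfl⟩ ?_ ?_
        · rintro ⟨⟨a, ha⟩, ha2⟩ ⟨k, hk⟩ ⟨⟨b, hb⟩, hb2⟩ ⟨l, hl⟩ hab
          have hk' : a = Sum.inr k := hk
          have hl' : b = Sum.inr l := hl
          subst hk'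
          subst hl'
          have hkl : l ≠ k := by
            rintro rfl
            exact hab rfl
          exact hg_hub F col _ l hkl
        · intro v
          obtain ⟨k, hk, hkj⟩ := other hr (kap col v.1.1) j
          exact ⟨⟨_, hubs k hkj⟩, ⟨k, rfl⟩, Or.inr (hg_hub F col v.1.1 k hk)⟩
  refine treeGlued_bound _ _ _ (stage_conn hr F col _) ?_ (by omega) htg
  have h01 : (⟨Sum.inr ⟨0, by omega⟩, hub_mem col (j : ℕ) _⟩ : St col (j : ℕ)) ≠
      ⟨Sum.inr ⟨1, by omega⟩, hub_mem col (j : ℕ) _⟩ := by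
    intro h
    have h1 := congrArg Subtype.val h
    have h2 : (⟨0, by omega⟩ : Fin r) = ⟨1, by omega⟩ := Sum.inr.inj h1
    have h3 := congrArg Fin.val h2
    simp at h3
  exact Fintype.one_lt_card_iff.2 ⟨_, _, h01⟩

/-- **bounded lower degrees** -/
theorem layered (hr : 3 ≤ r) [Fintype W] (F : SimpleGraph W) (col : W → Fin r)
    (hcol : ∀ a b, F.Adj a b → col a ≠ col b)
    (d : ℕ) (hd : ∀ w, {u | F.Adj w u ∧ col u < col w}.ncard ≤ d) :
    c F ≤ (((d + (r - 1)) ^ r : ℕ) : ℝ≥0∞) * c (⊤ : SimpleGraph (Fin r)) := by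
  have hst : ∀ j : ℕ, j ≤ r → c ((HG F col).induce (St col j)) ≤
      (((d + (r - 1)) ^ j : ℕ) : ℝ≥0∞) * c (⊤ : SimpleGraph (Fin r)) := by
    intro j
    induction j with
    | zero =>
      intro _
      rw [pow_zero, Nat.cast_one, one_mul]
      refine Pool.Agent.Y388.CF.c_mono ⟨⟨⟨fun a => kap col a.1, fun {a b} h => ?_⟩, ?_⟩⟩
      · have h1 : (HG F col).Adj a.1 b.1 := h
        exact h1.1
      · rintro ⟨a, ha⟩ ⟨b, hb⟩ hab
        rcases a with u | k
        · exact absurd (ha u rfl) (by omega)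
        · rcases b with w | l
          · exact absurd (hb w rfl) (by omega)
          · have : k = l := hab
            subst this
            rfl
    | succ j ih =>
      intro hj
      refine (stage hr F col d hd ⟨j, hj⟩).trans ?_
      refine (mul_le_mul_right (ih (by omega)) _).trans ?_
      rw [← mul_assoc, ← Nat.cast_mul, pow_succ, mul_comm ((d + (r - 1)) ^ j)]
  refine le_trans ?_ (hst r le_rfl)
  refine Pool.Agent.Y388.CF.c_mono ⟨⟨⟨fun w => ⟨Sum.inl w, ?_⟩, fun {a b} h => ?_⟩, ?_⟩⟩
  · intro u _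
    exact (col u).2
  · have h1 : (HG F col).Adj (Sum.inl a) (Sum.inl b) := by
      refine ⟨hcol a b h, ?_⟩
      intro u w hu hw
      rw [← Sum.inl.inj hu, ← Sum.inl.inj hw]
      exact h
    exact h1
  · intro a b hab
    exact Sum.inl.inj (congrArg Subtype.val hab)

end hubs

/-- greedy colouring -/
theorem greedy_col {W : Type} [Fintype W] (F : SimpleGraph W) (d : ℕ)
    (hd : ∀ w, {u | F.Adj w u}.ncard ≤ d) : F.Colorable (d + 1) := by
  have key : ∀ S : Finset W, ∃ f : W → Fin (d + 1), ∀ a ∈ S, ∀ b ∈ S, F.Adj a b → f a ≠ f b := by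
    intro S
    induction S using Finset.induction_on with
    | empty => exact ⟨fun _ => 0, fun a ha => absurd ha (Finset.notMem_empty a)⟩
    | insert v S hv ih =>
      obtain ⟨f, hf⟩ := ih
      obtain ⟨x, hx⟩ : ∃ x : Fin (d + 1), x ∉ f '' {u | F.Adj v u} := by
        by_contra hcon
        push Not at hcon
        have h1 : f '' {u | F.Adj v u} = Set.univ := Set.eq_univ_of_forall hcon
        have h2 : (f '' {u | F.Adj v u}).ncard ≤ d :=
          (Set.ncard_image_le (Set.toFinite _)).trans (hd v)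
        rw [h1, Set.ncard_univ, Nat.card_eq_fintype_card, Fintype.card_fin] at h2
        omega
      refine ⟨fun w => if w = v then x else f w, ?_⟩
      intro a ha b hb hab
      show (if a = v then x else f a) ≠ (if b = v then x else f b)
      by_cases hav : a = v
      · rw [if_pos hav]
        by_cases hbv : b = v
        · exact absurd (hav.trans hbv.symm) (F.ne_of_adj hab)
        · rw [if_neg hbv]
          intro h
          apply hx
          rw [h]
          exact ⟨b, by rw [← hav]; exact hab, rfl⟩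
      · rw [if_neg hav]
        by_cases hbv : b = v
        · rw [if_pos hbv]
          intro h
          apply hx
          rw [← h]
          exact ⟨a, by rw [← hbv]; exact hab.symm, rfl⟩
        · rw [if_neg hbv]
          exact hf a ((Finset.mem_insert.1 ha).resolve_left hav) b
            ((Finset.mem_insert.1 hb).resolve_left hbv) hab
  obtain ⟨f, hf⟩ := key Finset.univ
  exact ⟨SimpleGraph.Coloring.mk f (fun {a b} hab => hf a (Finset.mem_univ _) b (Finset.mem_univ _) hab)⟩

end Pool.Agent.Helper36y
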